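import Pool.Agent.N463.MI.Stm

/-!
# Project MI, part D05 (middle arc)
-/

noncomputable section

namespace Pool.Agent.N678.MI

open Pool.Agent.N463.MI

theorem tsum1 (h3 : D03) (θ : ℝ) (K : ℕ) (t : ℝ) (ht : 0 < t) (hK : 1 ≤ K) :
    (∑' k : ℕ, (133 / 300 * Real.exp (-(3 * t * |((k : ℝ) + 1) - K|))
        - 67 / 400 * Real.exp (-(4 * t * |((k : ℝ) + 1) - K|))
        + (Real.exp (-(t * |((k : ℝ) + 1) - K|)) - Real.exp (-(3 * t * |((k : ℝ) + 1) - K|)) / 3)
            * Real.cos ((k + 1 : ℕ) * θ)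
        - (Real.exp (-(2 * t * |((k : ℝ) + 1) - K|)) / 2
            - 3 / 10 * Real.exp (-(3 * t * |((k : ℝ) + 1) - K|)))
            * Real.cos ((k + 1 : ℕ) * (2 * θ))))
      = 133 / 300 * ((1 + Real.exp (-(3 * t)) - Real.exp (-(3 * t * K))) / (1 - Real.exp (-(3 * t))))
        - 67 / 400 * ((1 + Real.exp (-(4 * t)) - Real.exp (-(4 * t * K))) / (1 - Real.exp (-(4 * t))))
        + ((Real.cos (K * θ) * kr t θ - Real.exp (-(t * K)) * (1 + kr t θ) / 2)
          - 1 / 3 * (Real.cos (K * θ) * kr (3 * t) θ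
            - Real.exp (-(3 * t * K)) * (1 + kr (3 * t) θ) / 2))
        - (1 / 2 * (Real.cos (K * (2 * θ)) * kr (2 * t) (2 * θ)
            - Real.exp (-(2 * t * K)) * (1 + kr (2 * t) (2 * θ)) / 2)
          - 3 / 10 * (Real.cos (K * (2 * θ)) * kr (3 * t) (2 * θ)
            - Real.exp (-(3 * t * K)) * (1 + kr (3 * t) (2 * θ)) / 2)) := by
  refine HasSum.tsum_eq ?_
  have hN3 := (h3 (3 * t) θ K (by positivity) hK).2.1
  have hN4 := (h3 (4 * t) θ K (by positivity) hK).2.1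
  have hT1 := (h3 t θ K ht hK).1
  have hT3 := (h3 (3 * t) θ K (by positivity) hK).1
  have hT2 := (h3 (2 * t) (2 * θ) K (by positivity) hK).1
  have hT3' := (h3 (3 * t) (2 * θ) K (by positivity) hK).1
  have h := ((((hN3.mul_left (133/300)).sub (hN4.mul_left (67/400))).add
    (hT1.sub (hT3.mul_left (1/3)))).sub ((hT2.mul_left (1/2)).sub (hT3'.mul_left (3/10))))
  refine Eq.mpr (congrArg (fun f => HasSum f _) (funext fun k => ?_)) h
  ring

theorem tsum2 (h3 : D03) (θ : ℝ) (t : ℝ) (ht : 0 < t) :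
    (∑' k : ℕ, (Real.exp (-(2 * t * (2 * (k : ℝ) + 1))) / 2
        - Real.exp (-(4 * t * (2 * (k : ℝ) + 1))) / 8
        - (Real.exp (-(t * (2 * (k : ℝ) + 1))) - Real.exp (-(3 * t * (2 * (k : ℝ) + 1))) / 3)
            * Real.cos ((2 * k + 1 : ℕ) * θ)))
      = 1 / 2 * (1 / (2 * Real.sinh (2 * t))) - 1 / 8 * (1 / (2 * Real.sinh (4 * t)))
        - ((kr t θ - kr t (θ + Real.pi)) / 4
          - 1 / 3 * ((kr (3 * t) θ - kr (3 * t) (θ + Real.pi)) / 4)) := by
  refine HasSum.tsum_eq ?_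
  have hO2 := (h3 (2 * t) θ 1 (by positivity) le_rfl).2.2.2
  have hO4 := (h3 (4 * t) θ 1 (by positivity) le_rfl).2.2.2
  have hC1 := (h3 t θ 1 ht le_rfl).2.2.1
  have hC3 := (h3 (3 * t) θ 1 (by positivity) le_rfl).2.2.1
  have h := (((hO2.mul_left (1/2)).sub (hO4.mul_left (1/8))).sub (hC1.sub (hC3.mul_left (1/3))))
  refine Eq.mpr (congrArg (fun f => HasSum f _) (funext fun k => ?_)) h
  ring

theorem sinh_le {x : ℝ} (h0 : 0 ≤ x) (h1 : x ≤ 0.012) : Real.sinh x ≤ 1.006 * x := by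
  have h2 := Real.abs_exp_sub_one_sub_id_le (x := x) (by rw [abs_of_nonneg h0]; linarith)
  have h3 := (abs_le.mp h2).2
  have h4 := Real.add_one_le_exp (-x)
  rw [Real.sinh_eq]
  nlinarith

theorem kr_le {s φ δ : ℝ} (h0 : 0 < s) (h1 : s ≤ 0.012) (hδ : 0 < δ) (h2 : δ ≤ 1 - Real.cos φ) :
    kr s φ ≤ 1.006 * s / δ := by
  unfold kr
  have h3 := Real.one_le_cosh s
  have h4 : 0 ≤ Real.sinh s := (Real.sinh_nonneg_iff).mpr h0.le
  exact div_le_div₀ (by positivity) (sinh_le h0.le h1) hδ (by linarith)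

theorem cos_small : Real.cos (1 / 25) ≤ 1 - 0.00079 := by
  have h := Real.cos_bound (x := 1 / 25) (by norm_num [abs_of_pos])
  have h1 := (abs_le.mp h).2
  rw [abs_of_pos (by norm_num : (0:ℝ) < 1 / 25)] at h1
  norm_num at h1 ⊢
  linarith

theorem cos_bd {θ : ℝ} (h1 : 1 / 25 ≤ θ) (h2 : θ ≤ Real.pi - 1 / 25) :
    0.00079 ≤ 1 - Real.cos θ ∧ 0.00079 ≤ 1 - Real.cos (θ + Real.pi) ∧
      0.0031 ≤ 1 - Real.cos (2 * θ) := by
  have hp := Real.pi_gt_three
  have h3 := cos_small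
  have h4 : Real.cos θ ≤ Real.cos (1 / 25) :=
    Real.cos_le_cos_of_nonneg_of_le_pi (by norm_num) (by linarith) h1
  have h5 : Real.cos (Real.pi - θ) ≤ Real.cos (1 / 25) :=
    Real.cos_le_cos_of_nonneg_of_le_pi (by norm_num) (by linarith) (by linarith)
  rw [Real.cos_pi_sub] at h5
  refine ⟨by linarith, by rw [Real.cos_add_pi]; linarith, ?_⟩
  rw [Real.cos_two_mul]
  have h6 : 0.00079 ≤ 1 - Real.cos θ := by linarith
  have h7 : 0.00079 ≤ 1 + Real.cos θ := by linarith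
  nlinarith

/-- upper bound of `N_m` -/
theorem N_up {s E : ℝ} (h0 : 0 < s) (h1 : s ≤ 0.0099) (hE : 0 ≤ E) :
    (1 + Real.exp (-s) - E) / (1 - Real.exp (-s)) ≤ (2 - E) / s + 0.01 := by
  have h2 := Real.quadratic_le_exp_of_nonneg h0.le
  have h3 : Real.exp (-s) * Real.exp s = 1 := by rw [← Real.exp_add]; simp
  have h4 : 0 < Real.exp (-s) := Real.exp_pos _
  have h5 : Real.exp (-s) * (1 + s + s ^ 2 / 2) ≤ 1 := by
    calc Real.exp (-s) * (1 + s + s ^ 2 / 2) ≤ Real.exp (-s) * Real.exp s :=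
          mul_le_mul_of_nonneg_left h2 h4.le
      _ = 1 := h3
  have h6 : Real.exp (-s) < 1 := by
    rw [Real.exp_lt_one_iff]; linarith
  have h8 := Real.add_one_le_exp (-s)
  rw [div_add' _ _ _ h0.ne', div_le_div_iff₀ (by linarith) h0]
  obtain ⟨u, hu⟩ : ∃ u, u = 1 - Real.exp (-s) := ⟨_, rfl⟩
  have hx : Real.exp (-s) = 1 - u := by rw [hu]; ring
  rw [hx] at h4 h5 h6 h8 ⊢
  have u0 : 0 < u := by linarith
  have us : u ≤ s := by linarith
  have k2 : u * (0.99 + s) ≤ s := by nlinarith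
  have k3 : s * (u * (0.99 + s)) ≤ s * s := mul_le_mul_of_nonneg_left k2 h0.le
  have k4 : E * (s - u) ≥ 0 := mul_nonneg hE (by linarith)
  nlinarith

/-- lower bound of `N_m` -/
theorem N_lo {s E : ℝ} (h0 : 0 < s) (hE1 : E ≤ 1) :
    (2 - E) / s - 1 ≤ (1 + Real.exp (-s) - E) / (1 - Real.exp (-s)) := by
  have h2 := Real.add_one_le_exp (-s)
  have h6 : Real.exp (-s) < 1 := by
    rw [Real.exp_lt_one_iff]; linarith
  have h4 : 0 < Real.exp (-s) := Real.exp_pos _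
  rw [div_sub' h0.ne', div_le_div_iff₀ h0 (by linarith)]
  set x := Real.exp (-s) with hx
  nlinarith

/-- the oscillating terms -/
theorem osc {t c c' p1 p3 q2 q3 r1 r3 E1 E2 E3 : ℝ} (ht : 0 < t)
    (hc1 : c ≤ 1) (hc2 : -1 ≤ c) (hc1' : c' ≤ 1) (hc2' : -1 ≤ c')
    (hp1 : 0 < p1) (hp1' : p1 ≤ 1273.5 * t) (hp3 : 0 < p3) (hp3' : p3 ≤ 3820.4 * t)
    (hq2 : 0 < q2) (hq2' : q2 ≤ 649.1 * t) (hq3 : 0 < q3) (hq3' : q3 ≤ 973.7 * t)
    (hr1' : r1 ≤ 1273.5 * t) (hr3 : 0 < r3)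
    (hE1 : 0 < E1) (_hE2 : 0 < E2) (hE2' : E2 ≤ 1 / 4) (hE3 : 0 < E3) (hE3' : E3 ≤ 1 / 8) :
    ((c * p1 - E1 * (1 + p1) / 2) - 1 / 3 * (c * p3 - E3 * (1 + p3) / 2))
      - (1 / 2 * (c' * q2 - E2 * (1 + q2) / 2) - 3 / 10 * (c' * q3 - E3 * (1 + q3) / 2))
      - ((p1 - r1) / 4 - 1 / 3 * ((p3 - r3) / 4)) ≤ 4000 * t + 0.084 := by
  have h1 : c * p1 ≤ p1 := by nlinarith
  have h2 : 0 ≤ E1 * (1 + p1) := by positivity
  have h3 : -p3 ≤ c * p3 := by nlinarith
  have h4 : E3 * (1 + p3) ≤ 1 / 8 * (1 + p3) := mul_le_mul_of_nonneg_right hE3' (by linarith)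
  have h5 : -q2 ≤ c' * q2 := by nlinarith
  have h6 : E2 * (1 + q2) ≤ 1 / 4 * (1 + q2) := mul_le_mul_of_nonneg_right hE2' (by linarith)
  have h7 : c' * q3 ≤ q3 := by nlinarith
  have h8 : 0 ≤ E3 * (1 + q3) := by positivity
  linarith

theorem log_inv_le {t : ℝ} (ht : 0 < t) : -Real.log t ≤ 1 / t / 512 + 5.2384 := by
  have h1 : Real.log (1 / t / 512) ≤ 1 / t / 512 - 1 := Real.log_le_sub_one_of_pos (by positivity)
  have h2 : Real.log (1 / t / 512) = -Real.log t - 9 * Real.log 2 := by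
    rw [Real.log_div (by positivity) (by norm_num), one_div, Real.log_inv]
    have : (512 : ℝ) = 2 ^ 9 := by norm_num
    rw [this, Real.log_pow]
    push_cast; ring
  have h3 := Real.log_two_lt_d9
  rw [h2] at h1
  linarith

/-- the bound for general parameters -/
theorem main (h3 : D03) (h4 : D04) (h2 : B02) (a : ℝ) (K : ℕ) (θ t : ℝ) (ha : 2 ≤ a)
    (hK : 1 ≤ K) (htd : t = Real.log a / K) (ht : t ≤ 0.003)
    (hθ : 1 / 25 ≤ θ) (hθ' : θ ≤ Real.pi - 1 / 25)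
    (hnum : (Real.log a) ^ 2 / (2 * t) - Real.log a / 2
      + 133 / 300 * ((2 - (a⁻¹) ^ 3) / (3 * t) + 0.01) - 67 / 400 * ((2 - (a⁻¹) ^ 4) / (4 * t) - 1)
      + 1 / (8 * t) - 1 / (64.384 * t) + 4000 * t + 0.084
      + 3 / 2 * (1 / t / 512 + 5.2384) ≤ cst a / t - 3) : Small a K θ := by
  have hL : 0 < Real.log a := Real.log_pos (by linarith)
  have hK0 : (0 : ℝ) < K := by exact_mod_cast hK
  have ht0 : 0 < t := by rw [htd]; positivity
  have htK : t * K = Real.log a := by rw [htd]; field_simp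
  have hE : ∀ m : ℕ, Real.exp (-((m : ℝ) * t * K)) = (a⁻¹) ^ m := by
    intro m
    rw [mul_assoc, htK, Real.exp_neg, mul_comm, Real.exp_mul, Real.exp_log (by linarith),
      Real.rpow_natCast, inv_pow]
  have hE3 : Real.exp (-(3 * t * K)) = (a⁻¹) ^ 3 := by have := hE 3; exact_mod_cast this
  have hE4 : Real.exp (-(4 * t * K)) = (a⁻¹) ^ 4 := by have := hE 4; exact_mod_cast this
  have hE2 : Real.exp (-(2 * t * K)) = (a⁻¹) ^ 2 := by have := hE 2; exact_mod_cast this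
  have hai : 0 < a⁻¹ := by positivity
  have hai2 : a⁻¹ ≤ 1 / 2 := by rw [inv_le_comm₀ (by linarith) (by norm_num)]; norm_num; exact ha
  have e2 : (a⁻¹) ^ 2 ≤ 1 / 4 := by nlinarith
  have e3 : (a⁻¹) ^ 3 ≤ 1 / 8 := by
    calc (a⁻¹) ^ 3 ≤ (1 / 2) ^ 3 := pow_le_pow_left₀ hai.le hai2 3
      _ = 1 / 8 := by norm_num
  have e4 : (a⁻¹) ^ 4 ≤ 1 := pow_le_one₀ hai.le (by linarith)
  obtain ⟨b1, b2, b3⟩ := cos_bd hθ hθ'
  have kp := fun s φ (hs : 0 < s) => (h2 s φ hs).2.1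
  have hp1 := kr_le ht0 (by linarith) (by norm_num) b1
  have hp3 := kr_le (s := 3 * t) (by positivity) (by linarith) (by norm_num) b1
  have hr1 := kr_le ht0 (by linarith) (by norm_num) b2
  have hq2 := kr_le (s := 2 * t) (by positivity) (by linarith) (by norm_num) b3
  have hq3 := kr_le (s := 3 * t) (by positivity) (by linarith) (by norm_num) b3
  have hosc := osc (t := t) (c := Real.cos (K * θ)) (c' := Real.cos (K * (2 * θ)))
    (p1 := kr t θ) (p3 := kr (3 * t) θ) (q2 := kr (2 * t) (2 * θ)) (q3 := kr (3 * t) (2 * θ))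
    (r1 := kr t (θ + Real.pi)) (r3 := kr (3 * t) (θ + Real.pi))
    (E1 := Real.exp (-(t * K))) (E2 := Real.exp (-(2 * t * K))) (E3 := Real.exp (-(3 * t * K)))
    ht0 (Real.cos_le_one _) (Real.neg_one_le_cos _) (Real.cos_le_one _) (Real.neg_one_le_cos _)
    (kp _ _ ht0) (hp1.trans (by rw [div_le_iff₀ (by norm_num)]; linarith))
    (kp _ _ (by positivity)) (hp3.trans (by rw [div_le_iff₀ (by norm_num)]; linarith))
    (kp _ _ (by positivity)) (hq2.trans (by rw [div_le_iff₀ (by norm_num)]; linarith))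
    (kp _ _ (by positivity)) (hq3.trans (by rw [div_le_iff₀ (by norm_num)]; linarith))
    (hr1.trans (by rw [div_le_iff₀ (by norm_num)]; linarith)) (kp _ _ (by positivity))
    (Real.exp_pos _) (Real.exp_pos _) (by rw [hE2]; exact e2) (Real.exp_pos _)
    (by rw [hE3]; exact e3)
  have hN3 := N_up (s := 3 * t) (E := Real.exp (-(3 * t * K))) (by positivity) (by linarith)
    (Real.exp_pos _).le
  have hN4 := N_lo (s := 4 * t) (E := Real.exp (-(4 * t * K))) (by positivity)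
    (by rw [hE4]; exact e4)
  have hO2 : 1 / 2 * (1 / (2 * Real.sinh (2 * t))) ≤ 1 / (8 * t) := by
    have h := Real.self_le_sinh_iff.mpr (by positivity : 0 ≤ 2 * t)
    have : 1 / (2 * Real.sinh (2 * t)) ≤ 1 / (2 * (2 * t)) :=
      one_div_le_one_div_of_le (by positivity) (by linarith)
    calc 1 / 2 * (1 / (2 * Real.sinh (2 * t))) ≤ 1 / 2 * (1 / (2 * (2 * t))) := by linarith
      _ = 1 / (8 * t) := by field_simp; norm_num
  have hO4 : 1 / (64.384 * t) ≤ 1 / 8 * (1 / (2 * Real.sinh (4 * t))) := by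
    have h := sinh_le (x := 4 * t) (by positivity) (by linarith)
    have h0 : 0 < Real.sinh (4 * t) := Real.sinh_pos_iff.mpr (by positivity)
    have : 1 / (8.048 * t) ≤ 1 / (2 * Real.sinh (4 * t)) :=
      one_div_le_one_div_of_le (by positivity) (by linarith)
    calc 1 / (64.384 * t) = 1 / 8 * (1 / (8.048 * t)) := by field_simp; norm_num
      _ ≤ _ := by linarith
  have hD := h4 a K θ (by linarith) hK t htd
  rw [tsum1 h3 θ K t ht0 hK, tsum2 h3 θ t ht0] at hD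
  unfold Pool.Agent.N463.MI.Small
  rw [← htd]
  refine hD.trans ?_
  have hlog := log_inv_le ht0
  have hs : t * √t * Real.exp (cst a / t - 3)
      = Real.exp (Real.log t + Real.log t / 2 + (cst a / t - 3)) := by
    rw [Real.exp_add, Real.exp_add, Real.exp_log ht0, ← Real.log_sqrt ht0.le,
      Real.exp_log (Real.sqrt_pos.mpr ht0)]
  rw [hs]
  apply Real.exp_le_exp.mpr
  rw [hE3] at hN3
  rw [hE4] at hN4
  rw [hE3, hE4] at *
  linarith

theorem t_D05 (h3 : D03) (h4 : D04) (h2 : B02) (hc : B04) : D05 := by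
  intro a K θ hA hθ hθ'
  have l2 := Real.log_two_lt_d9
  have l2' := Real.log_two_gt_d9
  rcases hA with ⟨ha, hK⟩ | ⟨ha, hK⟩
  · subst ha
    have hKr : (340 : ℝ) ≤ K := by exact_mod_cast hK
    have hK0 : (0 : ℝ) < K := by linarith
    have ht0 : 0 < Real.log 2 / K := by positivity
    have ht : Real.log 2 / K ≤ 0.0020388 := by
      rw [div_le_iff₀ hK0]; nlinarith
    refine main h3 h4 h2 2 K θ _ le_rfl (by omega) rfl (by linarith) hθ hθ' ?_
    obtain ⟨t, htd⟩ : ∃ t, t = Real.log 2 / K := ⟨_, rfl⟩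
    rw [← htd] at ht0 ht ⊢
    obtain ⟨y, hy⟩ : ∃ y, y = 1 / t := ⟨_, rfl⟩
    have hty : t = 1 / y := by rw [hy]; simp
    have hy0 : 490 ≤ y := by
      rw [hy, le_div_iff₀ ht0]; linarith
    have hyt : y * t = 1 := by rw [hy]; field_simp
    have c1 := hc.1
    have c2 : (Real.log 2) ^ 2 / (2 * t) = (Real.log 2) ^ 2 / 2 * y := by
      rw [hy]; field_simp
    have c3 : (2 - ((2 : ℝ)⁻¹) ^ 3) / (3 * t) = 0.625 * y := by rw [hy]; field_simp; norm_num
    have c4 : (2 - ((2 : ℝ)⁻¹) ^ 4) / (4 * t) = 0.484375 * y := by rw [hy]; field_simp; norm_num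
    have c5 : 1 / (8 * t) = 0.125 * y := by rw [hy]; field_simp; norm_num
    have c6 : 0.0155 * y ≤ 1 / (64.384 * t) := by
      rw [hy, le_div_iff₀ (by positivity)]; field_simp; norm_num
    have c7 : cst 2 / t = cst 2 * y := by rw [hy]; field_simp
    have c8 : ((Real.log 2) ^ 2 / 2 + 0.3706) * y ≤ cst 2 * y :=
      mul_le_mul_of_nonneg_right c1 (by linarith)
    rw [c2, c3, c4, c5, c7, ← hy]
    linarith
  · subst ha
    have l3 : Real.log 3 ≤ 1.2 := by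
      have h1 : Real.log 3 = Real.log 2 + Real.log (3 / 2) := by
        rw [← Real.log_mul (by norm_num) (by norm_num)]; norm_num
      have h5 : Real.log (3 / 2) ≤ 3 / 2 - 1 := Real.log_le_sub_one_of_pos (by norm_num)
      linarith
    have l3' : 0 < Real.log 3 := Real.log_pos (by norm_num)
    have hKr : (400 : ℝ) ≤ K := by exact_mod_cast hK
    have hK0 : (0 : ℝ) < K := by linarith
    have ht0 : 0 < Real.log 3 / K := by positivity
    have ht : Real.log 3 / K ≤ 0.003 := by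
      rw [div_le_iff₀ hK0]; nlinarith
    refine main h3 h4 h2 3 K θ _ (by norm_num) (by omega) rfl (by linarith) hθ hθ' ?_
    obtain ⟨t, htd⟩ : ∃ t, t = Real.log 3 / K := ⟨_, rfl⟩
    rw [← htd] at ht0 ht ⊢
    obtain ⟨y, hy⟩ : ∃ y, y = 1 / t := ⟨_, rfl⟩
    have hy0 : 333 ≤ y := by
      rw [hy, le_div_iff₀ ht0]; linarith
    have c1 := hc.2.2.1
    have c2 : (Real.log 3) ^ 2 / (2 * t) = (Real.log 3) ^ 2 / 2 * y := by
      rw [hy]; field_simp
    have c3 : (2 - ((3 : ℝ)⁻¹) ^ 3) / (3 * t) ≤ 0.6544 * y := by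
      rw [hy, div_le_iff₀ (by positivity)]; field_simp; norm_num
    have c4 : 0.4969 * y ≤ (2 - ((3 : ℝ)⁻¹) ^ 4) / (4 * t) := by
      rw [hy, le_div_iff₀ (by positivity)]; field_simp; norm_num
    have c5 : 1 / (8 * t) = 0.125 * y := by rw [hy]; field_simp; norm_num
    have c6 : 0.0155 * y ≤ 1 / (64.384 * t) := by
      rw [hy, le_div_iff₀ (by positivity)]; field_simp; norm_num
    have c7 : cst 3 / t = cst 3 * y := by rw [hy]; field_simp
    have c8 : ((Real.log 3) ^ 2 / 2 + 0.51) * y ≤ cst 3 * y :=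
      mul_le_mul_of_nonneg_right c1 (by linarith)
    rw [c2, c5, c7, ← hy]
    linarith

end Pool.Agent.N678.MI
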